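import Mathlib

set_option autoImplicit false

namespace Pool.Agent.MP_c01216_gt.Zoll

open Set

/-- Euclidean 3-space; the sphere is the set of its unit vectors. -/
abbrev E3 : Type := EuclideanSpace ℝ (Fin 3)

/-- The unit tangent bundle of the metric `exp (2 u)` times the round metric on the unit sphere. -/
def UT (u : E3 → ℝ) : Set (E3 × E3) :=
  {p | ‖p.1‖ = 1 ∧ inner ℝ p.1 p.2 = 0 ∧ Real.exp (u p.1) * ‖p.2‖ = 1}

/-- `γ` restricted to `[0,a]` is a unit speed geodesic of the metric `exp (2 u)` times the round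
metric: the covariant acceleration of the conformal metric is normal to the sphere. -/
def IsGeod (u : E3 → ℝ) (γ : ℝ → E3) (a : ℝ) : Prop :=
  ContDiff ℝ 2 γ ∧ ∀ t ∈ Icc (0 : ℝ) a, (γ t, deriv γ t) ∈ UT u ∧
    ∃ c : ℝ, deriv (deriv γ) t + (2 * inner ℝ (gradient u (γ t)) (deriv γ t)) • deriv γ t -
      ‖deriv γ t‖ ^ 2 • gradient u (γ t) = c • γ t

/-- A stationary theta-graph with edges `γ i` of lengths `a i`: three geodesic arcs from a point
to a different point, embedded, meeting only at the two ends, balanced at both ends. -/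
def IsTheta (u : E3 → ℝ) (γ : Fin 3 → ℝ → E3) (a : Fin 3 → ℝ) : Prop :=
  (∀ i, 0 < a i ∧ IsGeod u (γ i) (a i)) ∧ γ 0 0 ≠ γ 0 (a 0) ∧
    (∀ i, γ i 0 = γ 0 0 ∧ γ i (a i) = γ 0 (a 0)) ∧
    (∀ i j, ∀ s ∈ Icc (0 : ℝ) (a i), ∀ t ∈ Icc (0 : ℝ) (a j), γ i s = γ j t →
      (i = j ∧ s = t) ∨ (s = 0 ∧ t = 0) ∨ (s = a i ∧ t = a j)) ∧
    ∑ i, deriv (γ i) 0 = 0 ∧ ∑ i, deriv (γ i) (a i) = 0

/-- Rotation of the tangent vector `v` at `x` by the angle `2 π / 3`. -/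
noncomputable def rot (x v : E3) : E3 :=
  (-1 / 2 : ℝ) • v + (√3 / 2 : ℝ) •
    !₂[x 1 * v 2 - x 2 * v 1, x 2 * v 0 - x 0 * v 2, x 0 * v 1 - x 1 * v 0]

/-- Every unit tangent vector `p` starts the first edge of a stationary theta-graph, the second edge
starts in the rotated direction, and the three edge lengths depend continuously on `p`. -/
def ThetaField (u : E3 → ℝ) : Prop :=
  ∃ l : Fin 3 → E3 × E3 → ℝ, (∀ i, ContinuousOn (l i) (UT u)) ∧
    ∀ p ∈ UT u, ∃ γ : Fin 3 → ℝ → E3, IsTheta u γ (fun i => l i p) ∧ γ 0 0 = p.1 ∧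
      deriv (γ 0) 0 = p.2 ∧ deriv (γ 1) 0 = rot p.1 p.2

/-- The metric `exp (2 u)` times the round metric is isometric to a round sphere of radius `r`. -/
def IsRound (u : E3 → ℝ) : Prop :=
  ∃ r : ℝ, 0 < r ∧ ∃ Ψ : E3 → E3, BijOn Ψ (Metric.sphere 0 1) (Metric.sphere 0 1) ∧
    ∀ x : E3, ‖x‖ = 1 → ContDiffAt ℝ 2 Ψ x ∧
      ∀ v : E3, inner ℝ x v = 0 → Real.exp (u x) * ‖v‖ = r * ‖fderiv ℝ Ψ x v‖

end Pool.Agent.MP_c01216_gt.Zoll
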